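import Mathlib

namespace Pool.Agent.Results.MP_a2947a_pr.Adder
open Finset Filter Topology Real

/-- the `n!` equally likely histories `[X_n, …, X_1, X_0]` of the Ulam-Kac adder -/
def H : ℕ → List (List ℕ)
  | 0 => [[1]]
  | n + 1 => (H n).flatMap fun l => l.map fun y => (l.headI + y) :: l

/-- expectation of a function of the history up to time `n` -/
noncomputable def E (n : ℕ) (φ : List ℕ → ℝ) : ℝ := ((H n).map φ).sum / (H n).length

/-- `E[X_n^m]` -/
noncomputable def mom (m n : ℕ) : ℝ := E n fun l => (l.headI : ℝ) ^ m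

lemma inv (n : ℕ) : ∀ l ∈ H n, l.length = n + 1 ∧ 1 ≤ l.headI ∧ ∀ y ∈ l, y ≤ l.headI := by
  induction n with
  | zero => simp [H]
  | succ n ih =>
    intro l hl
    simp only [H, List.mem_flatMap, List.mem_map] at hl
    obtain ⟨l, hl, y, -, rfl⟩ := hl
    obtain ⟨a, b, c⟩ := ih l hl
    refine ⟨by simp [a], by simp; omega, ?_⟩
    intro z hz
    rcases List.mem_cons.1 hz with rfl | hz
    · simp
    · have := c z hz
      simp; omega

lemma len (n : ℕ) : (H (n + 1)).length = (H n).length * (n + 1) := by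
  simp only [H, List.length_flatMap, List.length_map]
  rw [List.map_congr_left (g := fun _ => n + 1) (fun l hl => (inv n l hl).1)]
  simp

lemma len_pos (n : ℕ) : 0 < (H n).length := by
  induction n with
  | zero => simp [H]
  | succ n ih => rw [len]; positivity

lemma E_succ (n : ℕ) (φ : List ℕ → ℝ) :
    E (n + 1) φ = E n fun l => (l.map fun y => φ ((l.headI + y) :: l)).sum / (n + 1) := by
  unfold E
  rw [len]
  simp only [H, List.map_flatMap, List.map_map, div_eq_mul_inv, List.sum_map_mul_right]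
  rw [List.flatMap_def, List.sum_flatten, List.map_map]
  push_cast
  rw [mul_inv, mul_comm (_⁻¹) (_⁻¹ : ℝ), mul_assoc]
  rfl

lemma E_mono (n : ℕ) {φ ψ : List ℕ → ℝ} (h : ∀ l ∈ H n, φ l ≤ ψ l) : E n φ ≤ E n ψ :=
  div_le_div_of_nonneg_right (List.sum_le_sum h) (Nat.cast_nonneg _)

lemma E_mul (n : ℕ) (c : ℝ) (φ : List ℕ → ℝ) : E n (fun l => c * φ l) = c * E n φ := by
  simp only [E, List.sum_map_mul_left, mul_div_assoc]

lemma E_pos (n : ℕ) {φ : List ℕ → ℝ} (h : ∀ l ∈ H n, 1 ≤ φ l) : 0 < E n φ := by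
  refine lt_of_lt_of_le ?_ (E_mono n h)
  have := len_pos n
  simp only [E, List.map_const', List.sum_replicate, nsmul_eq_mul, mul_one]
  positivity

/-- `√(n+1)` -/
noncomputable def r (n : ℕ) : ℝ := √(n + 1)

lemma r_one (n : ℕ) : 1 ≤ r n := one_le_sqrt.2 (by simp)
lemma r_sq (n : ℕ) : r n ^ 2 = n + 1 := sq_sqrt (by positivity)
lemma r_le (n : ℕ) : r n ≤ r (n + 1) := sqrt_le_sqrt (by simp)
lemma r_succ (n : ℕ) : (r (n + 1) - r n) * (r (n + 1) + r n) = 1 := by
  have := r_sq n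
  have := r_sq (n + 1)
  push_cast at this
  linarith
lemma r_top : Tendsto r atTop atTop :=
  tendsto_sqrt_atTop.comp (tendsto_atTop_add_const_right _ _ tendsto_natCast_atTop_atTop)

lemma ev {F : ℝ → ℝ} (hF : Continuous F) {c : ℝ} (h : F 0 < c) : ∀ᶠ n in atTop, F (r n)⁻¹ < c :=
  ((hF.tendsto 0).comp r_top.inv_tendsto_atTop).eventually (gt_mem_nhds h)

lemma grow {Q : ℕ → ℝ} (h : ∀ᶠ n in atTop, Q n ≤ Q (n + 1)) : ∃ C, ∀ᶠ n in atTop, C ≤ Q n := by
  obtain ⟨N, hN⟩ := eventually_atTop.1 h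
  refine ⟨Q N, eventually_atTop.2 ⟨N, fun n hn => ?_⟩⟩
  induction n, hn using Nat.le_induction with
  | base => exact le_rfl
  | succ n hn ih => exact ih.trans (hN n hn)

lemma conv (m : ℕ) {a b s : ℝ} (ha : 0 ≤ a) (hb : 0 ≤ b) (h0 : 0 ≤ s) (h1 : s ≤ 1) :
    (a + s * (b - a)) ^ m ≤ a ^ m + s * (b ^ m - a ^ m) := by
  have := (convexOn_pow (𝕜 := ℝ) m).2 ha hb (sub_nonneg.2 h1) h0 (by ring)
  simp only [smul_eq_mul] at this
  calc _ = ((1 - s) * a + s * b) ^ m := by ring
    _ ≤ _ := this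
    _ = _ := by ring

lemma dmono (m : ℕ) {a b c : ℝ} (ha : 0 ≤ a) (hab : a ≤ b) (hc : 0 ≤ c) :
    (a + c) ^ m - a ^ m ≤ (b + c) ^ m - b ^ m := by
  induction m with
  | zero => simp
  | succ m ih =>
    have h0 : 0 ≤ (a + c) ^ m - a ^ m := sub_nonneg.2 (by gcongr; linarith)
    calc _ = (a + c) * ((a + c) ^ m - a ^ m) + c * a ^ m := by ring
      _ ≤ (b + c) * ((b + c) ^ m - b ^ m) + c * b ^ m := by gcongr; linarith
      _ = _ := by ring

lemma low1 (m : ℕ) {x y : ℝ} (h0 : 0 ≤ y) (h : y ≤ x) : x ^ m + (2 ^ m - 1) * y ^ m ≤ (x + y) ^ m := by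
  have := dmono m h0 h h0
  rw [← two_mul, mul_pow] at this
  linarith

lemma lsum (l : List ℕ) (f : ℕ → ℝ) (a b : ℝ) :
    (l.map fun y => a + b * f y).sum = l.length * a + b * (l.map f).sum := by
  induction l with
  | nil => simp
  | cons y l ih => simp only [List.map_cons, List.sum_cons, ih, List.length_cons]; push_cast; ring

lemma lower (m : ℕ) {γ : ℝ} (h0 : 0 < γ) (hγ : γ < 2 * √(2 ^ m - 1)) :
    ∀ᶠ n : ℕ in atTop, γ * √n ≤ log (mom m n) := by
  set k := √(2 ^ m - 1) with hk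
  have k0 : 0 < k := by linarith
  have k2 : k ^ 2 = 2 ^ m - 1 := sq_sqrt (sub_nonneg.2 (one_le_pow₀ one_le_two))
  obtain ⟨δ, d0, hd⟩ : ∃ δ, 0 < δ ∧ γ + 2 * δ < 2 * k := ⟨(2 * k - γ) / 4, by linarith, by linarith⟩
  set g := γ + 2 * δ with hg
  let φ : ℕ → List ℕ → ℝ := fun n l => (l.headI : ℝ) ^ m + k / r n * (l.map fun y : ℕ => (y : ℝ) ^ m).sum
  have B0 : ∀ l : List ℕ, 0 ≤ (l.map fun y : ℕ => (y : ℝ) ^ m).sum := fun l =>
    List.sum_nonneg (fun x hx => by obtain ⟨y, -, rfl⟩ := List.mem_map.1 hx; positivity)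
  have A1 : ∀ n, ∀ l ∈ H n, (1 : ℝ) ≤ (l.headI : ℝ) ^ m := fun n l hl =>
    one_le_pow₀ (by exact_mod_cast (inv n l hl).2.1)
  have P0 : ∀ n, 0 < E n (φ n) := fun n => E_pos n (fun l hl => by
    have := mul_nonneg (div_nonneg k0.le (zero_le_one.trans (r_one n))) (B0 l)
    have := A1 n l hl
    simp only [φ]; linarith)
  obtain ⟨C, hC⟩ := grow (Q := fun n => log (E n (φ n)) - g * r n) (by
    filter_upwards [ev (F := fun h => g / 2 + h * (g ^ 2 / 4 + 1 / 2 + k / 2)) (by fun_prop)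
      (c := k) (by simp; linarith), ev (F := fun h => g * h) (by fun_prop) (c := 1) (by simp)]
      with n e1 e2
    have r1 := r_one n
    have r2 := r_le n
    have r3 := r_succ n
    have r4 := r_sq n
    set h := (r n)⁻¹ with hh
    have hr : h * r n = 1 := inv_mul_cancel₀ (by linarith)
    have h0' : 0 < h := inv_pos.2 (by linarith)
    have h1 : h ≤ 1 := inv_le_one_of_one_le₀ r1
    have g0 : 0 < g := by linarith
    have d1 : r (n + 1) - r n ≤ h / 2 := by nlinarith
    have c1 : exp (g * (r (n + 1) - r n)) ≤ 1 + g * h / 2 + (g * h / 2) ^ 2 := by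
      have := (abs_le.1 (abs_exp_sub_one_sub_id_le (x := g * h / 2)
        (abs_le.2 ⟨by nlinarith, by linarith⟩))).2
      refine (exp_le_exp.2 (by nlinarith)).trans (by linarith : exp (g * h / 2) ≤ _)
    have q1 : h * (1 - h ^ 2 / 2) ≤ (r (n + 1))⁻¹ := by
      rw [← one_div, le_div_iff₀ (by linarith)]
      have : h * (1 - h ^ 2 / 2) * r (n + 1) ≤ h * (1 - h ^ 2 / 2) * (r n + h / 2) :=
        mul_le_mul_of_nonneg_left (by linarith) (mul_nonneg h0'.le (by nlinarith))
      have e : h * (1 - h ^ 2 / 2) * (r n + h / 2) = 1 - h ^ 4 / 4 := by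
        linear_combination (1 - h ^ 2 / 2) * hr
      nlinarith [pow_pos h0' 4]
    set c := exp (g * (r (n + 1) - r n)) with hc
    have e3 := mul_lt_mul_of_pos_left e1 h0'
    have c2 : c ≤ 1 + k * (h * (1 - h ^ 2 / 2)) := by
      have : k * h ^ 3 ≤ k * h ^ 2 := mul_le_mul_of_nonneg_left (by nlinarith [pow_pos h0' 2]) k0.le
      nlinarith [pow_pos h0' 2]
    have c3 : c ≤ k * h + (1 - h ^ 2 / 2) := by nlinarith [mul_pos k0 (pow_pos h0' 2)]
    have q2 := mul_le_mul_of_nonneg_left q1 k0.le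
    have step : c * E n (φ n) ≤ E (n + 1) (φ (n + 1)) := by
      rw [← E_mul, E_succ]
      refine E_mono n (fun l hl => ?_)
      obtain ⟨l1, l2, l3⟩ := inv n l hl
      have a1 := A1 n l hl
      have b0 := B0 l
      rw [le_div_iff₀ (by positivity)]
      refine le_trans ?_ (List.sum_le_sum (f := fun y : ℕ => ((l.headI : ℝ) ^ m * (1 + k * (r (n + 1))⁻¹)
        + k * (r (n + 1))⁻¹ * (l.map fun y : ℕ => (y : ℝ) ^ m).sum) + k ^ 2 * (y : ℝ) ^ m) ?_)
      · rw [lsum, l1]
        simp only [φ, div_eq_mul_inv, ← hh]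
        generalize (l.map fun y : ℕ => (y : ℝ) ^ m).sum = B at *
        generalize (l.headI : ℝ) ^ m = A at *
        push_cast
        have e5 : k ^ 2 * B = (n + 1) * (k * h * (k * h) * B) := by
          rw [← r4]; linear_combination (-(k ^ 2 * B) * (1 + h * r n)) * hr
        rw [e5, ← mul_add, mul_comm]
        refine mul_le_mul_of_nonneg_left ?_ (by positivity)
        have f1 := mul_le_mul_of_nonneg_right (c2.trans (add_le_add le_rfl q2)) (zero_le_one.trans a1)
        have f3 := mul_le_mul_of_nonneg_right c3 (mul_pos k0 h0').le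
        have f2 : c * (k * h) ≤ k * (r (n + 1))⁻¹ + k * h * (k * h) := by
          linear_combination f3 + q2
        linear_combination f1 + mul_le_mul_of_nonneg_right f2 b0
      · intro y hy
        have y1 : (y : ℝ) ≤ l.headI := by exact_mod_cast l3 y hy
        have := low1 m (Nat.cast_nonneg y) y1
        have z : (l.headI : ℝ) ^ m ≤ ((l.headI : ℝ) + y) ^ m := by gcongr; simp
        have z2 := mul_le_mul_of_nonneg_left z (mul_nonneg k0.le (inv_nonneg.2 (by linarith : 0 ≤ r (n + 1))))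
        simp only [φ, List.headI_cons, List.map_cons, List.sum_cons, div_eq_mul_inv, k2]
        push_cast
        linarith
    have := log_le_log (mul_pos (exp_pos _) (P0 n)) step
    rw [log_mul (exp_pos _).ne' (P0 n).ne', log_exp] at this
    linarith)
  filter_upwards [hC, r_top.eventually_ge_atTop ((log (1 + k / δ) - C) / δ)] with n e1 e2
  have r1 := r_one n
  have m0 : 0 < mom m n := E_pos n (A1 n)
  have s1 : E n (φ n) ≤ (1 + k / δ) * (1 + δ * r n) * mom m n := by
    rw [mom, ← E_mul]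
    refine E_mono n (fun l hl => ?_)
    obtain ⟨l1, l2, l3⟩ := inv n l hl
    have b1 : (l.map fun y : ℕ => (y : ℝ) ^ m).sum ≤ r n ^ 2 * (l.headI : ℝ) ^ m := by
      have := List.sum_le_sum (l := l) (f := fun y : ℕ => (y : ℝ) ^ m)
        (g := fun _ => (l.headI : ℝ) ^ m + 0 * 0) (fun y hy => by
          have y1 : (y : ℝ) ≤ l.headI := by exact_mod_cast l3 y hy
          simp only [mul_zero, add_zero]
          gcongr)
      rw [lsum l (fun _ => 0), l1] at this
      rw [r_sq]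
      simpa using this
    have b2 := mul_le_mul_of_nonneg_left b1 (div_nonneg k0.le (by linarith : 0 ≤ r n))
    have b3 : k / r n * (r n ^ 2 * (l.headI : ℝ) ^ m) = k * r n * (l.headI : ℝ) ^ m := by
      field_simp
    have b4 : 1 + k * r n ≤ (1 + k / δ) * (1 + δ * r n) := by
      have : k / δ * (δ * r n) = k * r n := by field_simp
      have := div_pos k0 d0
      nlinarith
    have := mul_le_mul_of_nonneg_right b4 (zero_le_one.trans (A1 n l hl))
    simp only [φ]
    linarith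
  have s2 := log_le_log (P0 n) s1
  have p1 : 0 < 1 + k / δ := by positivity
  have p2 : 0 < 1 + δ * r n := by nlinarith
  rw [log_mul (mul_pos p1 p2).ne' m0.ne', log_mul p1.ne' p2.ne'] at s2
  have s3 := log_le_sub_one_of_pos p2
  rw [div_le_iff₀ d0] at e2
  have s4 : γ * √n ≤ γ * r n := mul_le_mul_of_nonneg_left (sqrt_le_sqrt (by simp)) h0.le
  simp only [hg] at e1
  linarith

lemma up1 (m : ℕ) {t ρ X S h L : ℝ} (t0 : 0 < t) (h0 : 0 < h) (X0 : 0 < X) (S0 : 0 ≤ S)
    (hL : L * h ^ 2 = 1)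
    (hρ : ∀ x : ℝ, 0 ≤ x → x ≤ 1 → m * t * x + (1 - x) * (∑ i ∈ range m, (1 + x) ^ i) / t ≤ ρ) :
    L * (X + t * h * S + t * h * X) ^ m + ((X + t * h * S + t * h * X + (1 + t * h) * X) ^ m -
      (X + t * h * S + t * h * X) ^ m) / X * S ≤
      (1 + (1 + t * h) ^ m * ρ * h) * (X + t * h * S) ^ m * L := by
  set W := X + t * h * S with hW
  set B := 1 + t * h with hB
  have e0 : 0 < t * h := mul_pos t0 h0
  have XW : X ≤ W := by nlinarith
  have W0 : 0 < W := by linarith
  obtain ⟨x, hx⟩ : ∃ x, X = x * W := ⟨X / W, by field_simp⟩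
  have x0 : 0 < x := by nlinarith
  have x1 : x ≤ 1 := by nlinarith
  have B1 : 1 ≤ B := by linarith
  have L0 : 0 < L := by nlinarith [pow_pos h0 2]
  have a1 : (W + t * h * X) ^ m ≤ W ^ m + x * (B ^ m - 1) * W ^ m := by
    have := conv m W0.le (mul_pos (by linarith : 0 < B) W0).le x0.le x1
    rw [mul_pow] at this
    convert this using 1
    · rw [hx, hB]; ring
    · ring
  have a2 : B ^ m - 1 ≤ m * (t * h) * B ^ m := by
    rw [← geom_sum_mul]
    have : ∑ i ∈ range m, B ^ i ≤ m * B ^ m := by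
      simpa using sum_le_card_nsmul (range m) (fun i => B ^ i) (B ^ m)
        (fun i hi => pow_le_pow_right₀ B1 (mem_range.1 hi).le)
    rw [show B - 1 = t * h by linarith]
    nlinarith
  have a3 : (W + t * h * X + B * X) ^ m - (W + t * h * X) ^ m ≤
      B ^ m * W ^ m * (∑ i ∈ range m, (1 + x) ^ i) * x := by
    have := dmono m (a := W + t * h * X) (b := B * W) (c := B * X) (by positivity) (by nlinarith)
      (by positivity)
    refine this.trans (le_of_eq ?_)
    have g := geom_sum_mul (1 + x) m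
    rw [show B * W + B * X = B * W * (1 + x) by rw [hx]; ring, mul_pow, mul_pow]
    linear_combination (-(B ^ m * W ^ m)) * g
  have a4 : S / X = (1 - x) / (t * x) * h * L := by
    have : S = (1 - x) * W / (t * h) := by
      field_simp
      linarith
    rw [this]
    clear_value W
    subst hx
    field_simp
    linear_combination (x - 1) * hL
  have a5 := mul_le_mul_of_nonneg_right a3 (div_nonneg S0 X0.le)
  have a6 := mul_le_mul_of_nonneg_left (hρ x x0.le x1)
    (by positivity : 0 ≤ B ^ m * W ^ m * h * L)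
  have a7 := mul_le_mul_of_nonneg_left a2 (by positivity : 0 ≤ x * W ^ m)
  have a8 := mul_le_mul_of_nonneg_left (a1.trans (by linarith :
    _ ≤ W ^ m + x * W ^ m * (m * (t * h) * B ^ m))) L0.le
  have a9 : B ^ m * W ^ m * (∑ i ∈ range m, (1 + x) ^ i) * x * (S / X) =
      B ^ m * W ^ m * h * L * ((1 - x) * (∑ i ∈ range m, (1 + x) ^ i) / t) := by
    rw [a4]
    generalize (∑ i ∈ range m, (1 + x) ^ i) = G
    generalize B ^ m = Bm
    generalize W ^ m = Wm
    clear * - t0 x0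
    field_simp
  rw [div_mul_eq_mul_div, mul_div_assoc]
  rw [a9] at a5
  generalize (1 - x) * (∑ i ∈ range m, (1 + x) ^ i) / t = G at *
  generalize ((W + t * h * X + B * X) ^ m - (W + t * h * X) ^ m) * (S / X) = D at *
  generalize (W + t * h * X) ^ m = V at *
  generalize W ^ m = Wm at *
  generalize B ^ m = Bm at *
  linarith

lemma upper (m : ℕ) {t ρ γ : ℝ} (t0 : 0 < t) (r0 : 0 ≤ ρ) (hγ : 2 * ρ < γ)
    (hρ : ∀ x : ℝ, 0 ≤ x → x ≤ 1 → m * t * x + (1 - x) * (∑ i ∈ range m, (1 + x) ^ i) / t ≤ ρ) :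
    ∀ᶠ n : ℕ in atTop, log (mom m n) ≤ γ * √n := by
  obtain ⟨δ, d0, hd⟩ : ∃ δ, 0 < δ ∧ 2 * ρ < γ - δ := ⟨(γ - 2 * ρ) / 2, by linarith, by linarith⟩
  set g := γ - δ with hg
  let φ : ℕ → List ℕ → ℝ := fun n l =>
    ((l.headI : ℝ) + t * (r n)⁻¹ * (l.map fun y : ℕ => (y : ℝ)).sum) ^ m
  have B0 : ∀ l : List ℕ, 0 ≤ (l.map fun y : ℕ => (y : ℝ)).sum := fun l =>
    List.sum_nonneg (fun x hx => by obtain ⟨y, -, rfl⟩ := List.mem_map.1 hx; positivity)
  have A1 : ∀ n, ∀ l ∈ H n, (1 : ℝ) ≤ (l.headI : ℝ) ^ m := fun n l hl =>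
    one_le_pow₀ (by exact_mod_cast (inv n l hl).2.1)
  have A2 : ∀ n (l : List ℕ), (l.headI : ℝ) ^ m ≤ φ n l := fun n l => by
    have := mul_nonneg (mul_nonneg t0.le (inv_nonneg.2 (zero_le_one.trans (r_one n)))) (B0 l)
    simp only [φ]
    gcongr
    linarith
  have P0 : ∀ n, 0 < E n (φ n) := fun n => E_pos n (fun l hl => (A1 n l hl).trans (A2 n l))
  obtain ⟨C, hC⟩ := grow (Q := fun n => g * r n - log (E n (φ n))) (by
    filter_upwards [ev (F := fun h => (1 + t * h) ^ m * ρ * (1 + h)) (by fun_prop)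
      (c := g / 2) (by simp; linarith)] with n e1
    have r1 := r_one n
    have r2 := r_le n
    have r3 := r_succ n
    have r4 := r_sq n
    have h2 : (r (n + 1))⁻¹ ≤ (r n)⁻¹ := inv_anti₀ (by linarith) r2
    set h := (r n)⁻¹ with hh
    have hr : h * r n = 1 := inv_mul_cancel₀ (by linarith)
    have h0' : 0 < h := inv_pos.2 (by linarith)
    have g0 : 0 < g := by linarith
    set z := (1 + t * h) ^ m * ρ with hz
    have z0 : 0 ≤ z := by positivity
    have d1 : r (n + 1) - r n ≤ 1 := by nlinarith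
    have d2 : h ≤ 2 * (1 + h) * (r (n + 1) - r n) := by
      have : r (n + 1) + r n ≤ 2 * (1 + h) * r n := by nlinarith
      have := mul_le_mul_of_nonneg_left this (mul_nonneg h0'.le (sub_nonneg.2 r2))
      nlinarith
    have c1 : z * h ≤ g * (r (n + 1) - r n) := by
      have := mul_le_mul_of_nonneg_left d2 z0
      nlinarith [mul_le_mul_of_nonneg_right e1.le (sub_nonneg.2 r2)]
    have step : E (n + 1) (φ (n + 1)) ≤ (1 + z * h) * E n (φ n) := by
      rw [← E_mul, E_succ]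
      refine E_mono n (fun l hl => ?_)
      obtain ⟨l1, l2, l3⟩ := inv n l hl
      have b0 := B0 l
      have X0 : (0 : ℝ) < l.headI := by exact_mod_cast l2
      rw [div_le_iff₀ (by positivity)]
      refine le_trans ?_ (up1 m t0 h0' X0 b0 (L := n + 1) (by rw [← r4, ← mul_pow, mul_comm, hr]; simp) hρ)
      rw [show (n : ℝ) + 1 = l.length by rw [l1]; simp, ← lsum]
      refine List.sum_le_sum (fun y hy => ?_)
      have y1 : (y : ℝ) ≤ l.headI := by exact_mod_cast l3 y hy
      simp only [φ, List.headI_cons, List.map_cons, List.sum_cons]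
      push_cast
      generalize (l.map fun y : ℕ => (y : ℝ)).sum = S at *
      generalize (l.headI : ℝ) = X at *
      have y0 : (0 : ℝ) ≤ y := Nat.cast_nonneg y
      have := conv m (a := X + t * h * S + t * h * X) (b := X + t * h * S + t * h * X + (1 + t * h) * X)
        (s := y / X) (by positivity) (by positivity) (by positivity) ((div_le_one X0).2 y1)
      calc _ ≤ (X + y + t * h * (X + y + S)) ^ m := by
            have : 0 ≤ (r (n + 1))⁻¹ := inv_nonneg.2 (by linarith)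
            gcongr
        _ = _ := by congr 1; field_simp; ring
        _ ≤ _ := this
        _ = _ := by field_simp
    have := log_le_log (P0 _) step
    have p : 0 < 1 + z * h := by positivity
    rw [log_mul p.ne' (P0 n).ne'] at this
    have := log_le_sub_one_of_pos p
    linarith)
  filter_upwards [hC, (tendsto_sqrt_atTop.comp tendsto_natCast_atTop_atTop).eventually_ge_atTop
    ((g - C) / δ)] with n e1 e2
  have s2 := log_le_log (E_pos n (A1 n)) (E_mono n (fun l _ => A2 n l))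
  have s3 : r n ≤ √n + 1 := sqrt_le_iff.2 ⟨by positivity, by
    nlinarith [sq_sqrt (Nat.cast_nonneg n : (0 : ℝ) ≤ n), sqrt_nonneg (n : ℝ)]⟩
  have s4 := mul_le_mul_of_nonneg_left s3 (by linarith : 0 ≤ g)
  rw [div_le_iff₀ d0] at e2
  simp only [Function.comp, hg] at e1 e2 s4
  unfold mom
  linarith

lemma grid (m : ℕ) (a b ρ : ℚ) (a0 : 0 ≤ a) (b0 : 0 ≤ b)
    (h : ∀ k : Fin 100, a * (((k : ℕ) + 1) / 100) + (1 - (k : ℕ) / 100) *
      (∑ i ∈ range m, (1 + (((k : ℕ) + 1) / 100 : ℚ)) ^ i) * b ≤ ρ)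
    (x : ℝ) (x0 : 0 ≤ x) (x1 : x ≤ 1) :
    a * x + (1 - x) * (∑ i ∈ range m, (1 + x) ^ i) * b ≤ ρ := by
  obtain ⟨k, k1, k2, k3⟩ : ∃ k : ℕ, k < 100 ∧ (k : ℝ) / 100 ≤ x ∧ x ≤ (k + 1) / 100 := by
    rcases x1.eq_or_lt with rfl | x1
    · exact ⟨99, by norm_num, by norm_num, by norm_num⟩
    · have h1 := Nat.floor_le (by positivity : 0 ≤ 100 * x)
      have h2 := Nat.lt_floor_add_one (100 * x)
      refine ⟨⌊100 * x⌋₊, (Nat.floor_lt (by positivity)).2 (by push_cast; linarith), by linarith,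
        by linarith⟩
  have := (Rat.cast_le (K := ℝ)).2 (h ⟨k, k1⟩)
  push_cast at this
  refine le_trans ?_ this
  have a0' : (0 : ℝ) ≤ a := by exact_mod_cast a0
  have b0' : (0 : ℝ) ≤ b := by exact_mod_cast b0
  have : 0 ≤ 1 - x := by linarith
  have : 0 ≤ 1 - (k : ℝ) / 100 := by linarith
  gcongr

lemma expl (m : ℕ) : 2.718 * 1.49 ^ m ≤ exp (0.4 * m + 1) := by
  have h1 : (1.49 : ℝ) ≤ exp 0.4 := by
    have := sum_le_exp_of_nonneg (x := 0.4) (by norm_num) 4
    norm_num [sum_range_succ, Nat.factorial] at this ⊢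
    linarith
  rw [exp_add, mul_comm 0.4, exp_nat_mul, mul_comm]
  have := exp_one_gt_d9
  gcongr
  linarith

lemma ub (m : ℕ) (hm : 1 ≤ m) : ∃ t ρ : ℝ, 0 < t ∧ 0 ≤ ρ ∧ 2 * ρ < 2.718 * 1.49 ^ m ∧
    ∀ x : ℝ, 0 ≤ x → x ≤ 1 → m * t * x + (1 - x) * (∑ i ∈ range m, (1 + x) ^ i) / t ≤ ρ := by
  have small : ∀ (m : ℕ) (t ρ : ℚ), 0 < t → 0 ≤ ρ → 2 * ρ < 2718 / 1000 * (149 / 100) ^ m →
      (∀ k : Fin 100, m * t * (((k : ℕ) + 1) / 100) + (1 - (k : ℕ) / 100) *
      (∑ i ∈ range m, (1 + (((k : ℕ) + 1) / 100 : ℚ)) ^ i) * t⁻¹ ≤ ρ) →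
      ∃ t ρ : ℝ, 0 < t ∧ 0 ≤ ρ ∧ 2 * ρ < 2.718 * 1.49 ^ m ∧
      ∀ x : ℝ, 0 ≤ x → x ≤ 1 → m * t * x + (1 - x) * (∑ i ∈ range m, (1 + x) ^ i) / t ≤ ρ := by
    intro m t ρ t0 r0 h1 h2
    refine ⟨t, ρ, by exact_mod_cast t0, by exact_mod_cast r0, ?_, fun x x0 x1 => ?_⟩
    · have := (Rat.cast_lt (K := ℝ)).2 h1
      push_cast at this
      norm_num at this ⊢
      exact this
    · have := grid m _ _ ρ (by positivity) (by positivity) h2 x x0 x1
      push_cast at this
      rwa [div_eq_mul_inv]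
  by_cases h : m < 10
  · interval_cases m
    · exact small 1 1 2 (by norm_num) (by norm_num) (by norm_num) (by decide +kernel)
    · exact small 2 1 3 (by norm_num) (by norm_num) (by norm_num) (by decide +kernel)
    · exact small 3 (11 / 10) (44 / 10) (by norm_num) (by norm_num) (by norm_num) (by decide +kernel)
    · exact small 4 (12 / 10) (66 / 10) (by norm_num) (by norm_num) (by norm_num) (by decide +kernel)
    · exact small 5 (13 / 10) (99 / 10) (by norm_num) (by norm_num) (by norm_num) (by decide +kernel)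
    · exact small 6 (15 / 10) 14 (by norm_num) (by norm_num) (by norm_num) (by decide +kernel)
    · exact small 7 (18 / 10) 22 (by norm_num) (by norm_num) (by norm_num) (by decide +kernel)
    · exact small 8 (21 / 10) 33 (by norm_num) (by norm_num) (by norm_num) (by decide +kernel)
    · exact small 9 (27 / 10) 49 (by norm_num) (by norm_num) (by norm_num) (by decide +kernel)
  obtain ⟨j, rfl⟩ : ∃ j, m = j + 10 := ⟨m - 10, by omega⟩
  have g1 : ∀ x : ℝ, 0 ≤ x → x ≤ 1 → (1 - x) * (∑ i ∈ range (j + 10), (1 + x) ^ i) + 1 ≤ 95 * 2 ^ j := by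
    intro x x0 x1
    clear h hm
    induction j with
    | zero =>
      have := grid 10 0 1 94 le_rfl zero_le_one (by decide +kernel) x x0 x1
      push_cast at this
      linarith
    | succ j ih =>
      have p : 0 ≤ (1 - x) * (∑ i ∈ range (j + 10), (1 + x) ^ i) :=
        mul_nonneg (by linarith) (by positivity)
      rw [show j + 1 + 10 = j + 10 + 1 by ring, geom_sum_succ, pow_succ]
      nlinarith
  have g2 : 16 * ((j : ℝ) + 10) * (95 * 2 ^ j) < (2.718 * 1.49 ^ (j + 10)) ^ 2 := by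
    clear g1 h hm
    induction j with
    | zero => norm_num
    | succ j ih =>
      rw [show j + 1 + 10 = j + 10 + 1 by ring, pow_succ 1.49, pow_succ 2 j]
      push_cast
      have : (0 : ℝ) < 2 ^ j := by positivity
      have j0 : (0 : ℝ) ≤ j := Nat.cast_nonneg j
      nlinarith [mul_nonneg j0 this.le]
  set B : ℝ := 95 * 2 ^ j with hB
  have B0 : 0 < B := by positivity
  have M0 : (0 : ℝ) < j + 10 := by positivity
  set s := √((j + 10) * B) with hs
  have s0 : 0 < s := sqrt_pos.2 (by positivity)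
  have s2 : s ^ 2 = (j + 10) * B := sq_sqrt (by positivity)
  refine ⟨s / (j + 10), 2 * s, by positivity, by positivity,
    lt_of_pow_lt_pow_left₀ 2 (by positivity) (by nlinarith), fun x x0 x1 => ?_⟩
  have e1 : ((j + 10 : ℕ) : ℝ) * (s / (j + 10)) = s := by push_cast; field_simp
  have e2 : (1 - x) * (∑ i ∈ range (j + 10), (1 + x) ^ i) / (s / (j + 10)) ≤ s := by
    rw [div_le_iff₀ (by positivity), ← mul_div_assoc, le_div_iff₀ M0]
    nlinarith [g1 x x0 x1]
  rw [e1]
  nlinarith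

lemma lb (m : ℕ) (hm : 1 ≤ m) : exp (0.3 * m) < 2 * √(2 ^ m - 1) := by
  have h1 : exp 0.6 < 2 := by
    rw [← lt_log_iff_exp_lt two_pos]
    linarith [log_two_gt_d9]
  have h2 : (2 : ℝ) ≤ 2 ^ m := by simpa using pow_le_pow_right₀ (one_le_two (α := ℝ)) hm
  refine lt_of_pow_lt_pow_left₀ 2 (by positivity) ?_
  rw [mul_pow, sq_sqrt (by linarith), ← exp_nat_mul, show ((2 : ℕ) : ℝ) * (0.3 * m) = m * 0.6 by
    push_cast; ring, exp_nat_mul]
  have : exp 0.6 ^ m ≤ 2 ^ m := by gcongr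
  linarith

theorem result (m : ℕ) (hm : 1 ≤ m) :
    (∀ᶠ n : ℕ in atTop, exp (0.3 * m) ≤ log (mom m n) / √n ∧ log (mom m n) / √n ≤ exp (0.4 * m + 1)) ∧
    ∀ c : ℝ, Tendsto (fun n : ℕ => log (mom m n) / √n) atTop (𝓝 c) →
      0.3 * m ≤ log c ∧ log c ≤ 0.4 * m + 1 := by
  have main : ∀ᶠ n : ℕ in atTop, exp (0.3 * m) ≤ log (mom m n) / √n ∧
      log (mom m n) / √n ≤ exp (0.4 * m + 1) := by
    obtain ⟨t, ρ, t0, r0, h1, h2⟩ := ub m hm
    filter_upwards [lower m (exp_pos _) (lb m hm), upper m t0 r0 (h1.trans_le (expl m)) h2,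
      eventually_gt_atTop 0] with n e1 e2 e3
    have : 0 < √n := sqrt_pos.2 (by exact_mod_cast e3)
    exact ⟨(le_div_iff₀ this).2 e1, (div_le_iff₀ this).2 e2⟩
  refine ⟨main, fun c hc => ?_⟩
  have a := ge_of_tendsto hc (main.mono fun _ h => h.1)
  have b := le_of_tendsto hc (main.mono fun _ h => h.2)
  have c0 : 0 < c := (exp_pos _).trans_le a
  exact ⟨(le_log_iff_exp_le c0).2 a, (log_le_iff_le_exp c0).2 b⟩

end Pool.Agent.Results.MP_a2947a_pr.Adder
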